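import Pool.Agent.K4H80.RT.AllFin

set_option autoImplicit false

namespace Pool.Agent.Results.MP_233400_co.AsymptoticForAllTrees

open V11174.RES Pool.Agent.K4H80.RP Pool.Agent.K4H80.RT

/-- The rainbow Erdős–Sós problem in the cube holds asymptotically for all trees.

(1) For every `ε > 0` there is `k₀` such that for all `k ≥ k₀`, all `n` and every tree `T` with
`k` edges, `ex*(Q_n, K_{1,k}) ≤ ex*(Q_n, T) ≤ (1 + ε) ex*(Q_n, K_{1,k})`, where
`ex*(Q_n, K_{1,k}) = min (k - 1) n * 2 ^ (n - 1)`.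

(2) With a rate for trees with few pairs of vertices at distance four, in particular for trees of
small maximum degree: there is `C` such that for all `n`, `t ≥ C`, `k ≥ t ^ 4` and every tree `T`
with `k` edges that has at most `k ^ 2 / t ^ 3` ordered pairs of vertices at distance exactly four,
or whose maximum degree is at most `Δ` with `2 (Δ t) ^ 3 ≤ k`,
`ex*(Q_n, T) ≤ (1 + C / t) ex*(Q_n, K_{1,k})`. -/
theorem result :
    (∀ ε : ℝ, 0 < ε → ∃ k₀ : ℕ, ∀ k : ℕ, k₀ ≤ k → ∀ (n : ℕ) (W : Type) [Finite W]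
      (T : SimpleGraph W), T.IsTree → Nat.card W = k + 1 →
      exStar (cube n) (SimpleGraph.starGraph (0 : Fin (k + 1))) = min (k - 1) n * 2 ^ (n - 1) ∧
      exStar (cube n) (SimpleGraph.starGraph (0 : Fin (k + 1))) ≤ exStar (cube n) T ∧
      (exStar (cube n) T : ℝ) ≤
        (1 + ε) * (exStar (cube n) (SimpleGraph.starGraph (0 : Fin (k + 1))) : ℝ)) ∧
    (∃ C : ℕ, ∀ (n t k : ℕ) (W : Type) [Finite W] (T : SimpleGraph W),
      T.IsTree → Nat.card W = k + 1 → C ≤ t → t ^ 4 ≤ k →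
      ({x : W × W | T.dist x.1 x.2 = 4}.ncard * t ^ 3 ≤ k ^ 2 ∨
        ∃ Δ : ℕ, (∀ w, (T.neighborSet w).ncard ≤ Δ) ∧ 2 * (Δ * t) ^ 3 ≤ k) →
      t * exStar (cube n) T ≤
        (t + C) * exStar (cube n) (SimpleGraph.starGraph (0 : Fin (k + 1)))) := by
  classical
  constructor
  · intro ε hε
    obtain ⟨t, ht1, ht2⟩ : ∃ t : ℕ, 1400006 ≤ t ∧ (1400006 : ℝ) ≤ ε * t := by
      obtain ⟨t0, ht0⟩ := exists_nat_ge ((1400006 : ℝ) / ε)
      refine ⟨max t0 1400006, le_max_right _ _, ?_⟩
      have h1 : (1400006 : ℝ) / ε ≤ ((max t0 1400006 : ℕ) : ℝ) :=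
        ht0.trans (by exact_mod_cast le_max_left _ _)
      rw [div_le_iff₀ hε] at h1
      linarith
    obtain ⟨s0, hs0⟩ : ∃ s0, s0 = 96 * t ^ 3 := ⟨_, rfl⟩
    obtain ⟨K0, hK0⟩ : ∃ K0, K0 = 2 * t * (8 * t ^ 3 * (Ups s0 s0).card) := ⟨_, rfl⟩
    obtain ⟨s1, hs1⟩ : ∃ s1, s1 = 32 * t ^ 3 * K0 := ⟨_, rfl⟩
    obtain ⟨K1, hK1⟩ : ∃ K1, K1 = 2 * t * (8 * t ^ 3 * (Ups s1 s1).card) := ⟨_, rfl⟩
    refine ⟨t ^ 4 + 8 * t ^ 3 * (2 + 2 * K0 + K0 * K1), ?_⟩
    intro k hk n W _ T hT hW
    have := Fintype.ofFinite W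
    have hkt : t ^ 4 ≤ k := by omega
    have hk1 : 1 ≤ k := le_trans (Nat.one_le_pow _ _ (by omega)) hkt
    have hW' : Fintype.card W = k + 1 := by rw [← Nat.card_eq_fintype_card]; exact hW
    refine ⟨star_eq n k hk1, star_leW hk1 T hT hW, ?_⟩
    have h1 : t * exStar (cube n) T ≤
        (t + (1400004 + 2)) * exStar (cube n) (SimpleGraph.starGraph (0 : Fin (k + 1))) := by
      apply le_starW (C := 1400004) hkt (by omega) (by omega)
      intro H hH φ hφ hno
      have h2 := upperAll H hH φ hφ T hT k t s0 K0 s1 K1 hW' (by omega) hs0 hK0 hs1 hK1 hkt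
        (by omega) hno
      have hedge : H.edgeSet.ncard = H.edgeFinset.card := by
        rw [← SimpleGraph.coe_edgeFinset, Set.ncard_coe_finset]
      rw [hedge]
      exact h2
    have h2 : (t : ℝ) * (exStar (cube n) T : ℝ) ≤ ((t : ℝ) + 1400006) *
        (exStar (cube n) (SimpleGraph.starGraph (0 : Fin (k + 1))) : ℝ) := by
      have h3 : ((t * exStar (cube n) T : ℕ) : ℝ) ≤ (((t + (1400004 + 2)) *
        exStar (cube n) (SimpleGraph.starGraph (0 : Fin (k + 1))) : ℕ) : ℝ) := by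
        exact_mod_cast h1
      push_cast at h3
      linarith
    have ht0 : (0 : ℝ) < t := by
      have : 0 < t := by omega
      exact_mod_cast this
    have hs : (0 : ℝ) ≤ (exStar (cube n) (SimpleGraph.starGraph (0 : Fin (k + 1))) : ℝ) := by
      positivity
    have h3 : (t : ℝ) * (exStar (cube n) T : ℝ) ≤ (t : ℝ) * ((1 + ε) *
        (exStar (cube n) (SimpleGraph.starGraph (0 : Fin (k + 1))) : ℝ)) := by
      have h4 := mul_le_mul_of_nonneg_right ht2 hs
      nlinarith
    exact le_of_mul_le_mul_left h3 ht0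
  · refine ⟨1400002, ?_⟩
    intro n t k W _ T hT hW ht hk hcase
    have := Fintype.ofFinite W
    have hk1 : 1 ≤ k := le_trans (Nat.one_le_pow _ _ (by omega)) hk
    have hW' : Fintype.card W = k + 1 := by rw [← Nat.card_eq_fintype_card]; exact hW
    have hP : ((Finset.univ : Finset (W × W)).filter
        (fun x => T.dist x.1 x.2 = 4)).card * t ^ 3 ≤ k ^ 2 := by
      rcases hcase with h | ⟨Δ, h1, h2⟩
      · have h3 : {x : W × W | T.dist x.1 x.2 = 4} =
            ((Finset.univ : Finset (W × W)).filter (fun x => T.dist x.1 x.2 = 4) :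
              Finset (W × W)) := by
          ext x; simp
        rw [h3, Set.ncard_coe_finset] at h
        exact h
      · have h3 : ∀ w, T.degree w ≤ Δ := by
          intro w
          have h4 := h1 w
          rw [Set.ncard_eq_toFinset_card'] at h4
          rw [← SimpleGraph.card_neighborFinset_eq_degree]
          exact h4
        have h5 := pairs_four T hT hW' h3
        calc _ ≤ 2 * k * Δ ^ 3 * t ^ 3 := Nat.mul_le_mul_right _ h5
          _ = k * (2 * (Δ * t) ^ 3) := by ring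
          _ ≤ k * k := Nat.mul_le_mul_left _ h2
          _ = k ^ 2 := by ring
    apply le_starW (C := 1400000) hk (by omega) (by omega)
    intro H hH φ hφ hno
    have h1 := upperT H hH φ hφ T hT k t hW' (by omega) hk hP hno
    have hedge : H.edgeSet.ncard = H.edgeFinset.card := by
      rw [← SimpleGraph.coe_edgeFinset, Set.ncard_coe_finset]
    rw [hedge]
    exact h1

end Pool.Agent.Results.MP_233400_co.AsymptoticForAllTrees
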